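import Pool.Agent.N463.MI.Stm

/-! Project MI, part E02: the trapezoidal rule on the half line. -/

set_option autoImplicit false
set_option linter.all false

open MeasureTheory Filter Topology

namespace Pool.Agent.N106.MI

open Pool.Agent.N463.MI

/-- One interval of length one. -/
theorem e02_unit (G G' G'' : ℝ → ℂ) (A s k : ℝ) (hk : 0 ≤ k)
    (hG : ∀ u, 0 ≤ u → HasDerivAt G (G' u) u) (hG' : ∀ u, 0 ≤ u → HasDerivAt G' (G'' u) u)
    (hc : ContinuousOn G'' (Set.Ici 0)) (hA : ∀ u, 0 ≤ u → ‖G'' u‖ ≤ A * Real.exp (-(s * u))) :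
    ‖(G k + G (k + 1)) / 2 - ∫ u in k..(k + 1), G u‖ ≤
      ∫ u in k..(k + 1), A / 8 * Real.exp (-(s * u)) := by
  have hsub : Set.uIcc k (k + 1) ⊆ Set.Ici 0 := by
    intro x hx
    rw [Set.uIcc_of_le (by linarith)] at hx
    exact le_trans hk hx.1
  have hcG : ContinuousOn G (Set.uIcc k (k + 1)) := fun x hx =>
    (hG x (hsub hx)).continuousAt.continuousWithinAt
  have hcG'' : ContinuousOn G'' (Set.uIcc k (k + 1)) := hc.mono hsub
  have hw : Continuous fun u : ℝ => (((u - k) * (k + 1 - u) / 2 : ℝ) : ℂ) := by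
    refine Complex.continuous_ofReal.comp ?_
    fun_prop
  have hi1 : IntervalIntegrable G volume k (k + 1) := hcG.intervalIntegrable
  have hi2 : IntervalIntegrable (fun u => (((u - k) * (k + 1 - u) / 2 : ℝ) : ℂ) * G'' u)
      volume k (k + 1) := (hw.continuousOn.mul hcG'').intervalIntegrable
  have hft : ∫ u in k..(k + 1), (G u + (((u - k) * (k + 1 - u) / 2 : ℝ) : ℂ) * G'' u) =
      ((((k + 1) - k - 1 / 2 : ℝ) : ℂ) * G (k + 1) +
        ((((k + 1) - k) * (k + 1 - (k + 1)) / 2 : ℝ) : ℂ) * G' (k + 1)) -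
      (((k - k - 1 / 2 : ℝ) : ℂ) * G k + (((k - k) * (k + 1 - k) / 2 : ℝ) : ℂ) * G' k) := by
    refine intervalIntegral.integral_eq_sub_of_hasDerivAt
      (f := fun u : ℝ => ((u - k - 1 / 2 : ℝ) : ℂ) * G u +
        (((u - k) * (k + 1 - u) / 2 : ℝ) : ℂ) * G' u) ?_ (hi1.add hi2)
    intro u hu
    have h0 : (0 : ℝ) ≤ u := hsub hu
    have h1 : HasDerivAt (fun u : ℝ => ((u - k - 1 / 2 : ℝ) : ℂ)) ((1 : ℝ) : ℂ) u := by
      have : HasDerivAt (fun u : ℝ => u - k - 1 / 2) 1 u :=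
        ((hasDerivAt_id u).sub_const k).sub_const (1 / 2)
      exact this.ofReal_comp
    have h2 : HasDerivAt (fun u : ℝ => (((u - k) * (k + 1 - u) / 2 : ℝ) : ℂ))
        ((((1 * (k + 1 - u) + (u - k) * (-1)) / 2 : ℝ)) : ℂ) u := by
      have ha : HasDerivAt (fun u : ℝ => u - k) 1 u := (hasDerivAt_id u).sub_const k
      have hb : HasDerivAt (fun u : ℝ => k + 1 - u) (-1) u := (hasDerivAt_id u).const_sub (k + 1)
      exact ((ha.mul hb).div_const 2).ofReal_comp
    have h3 := (h1.mul (hG u h0)).add (h2.mul (hG' u h0))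
    refine (h3.congr_deriv ?_)
    push_cast
    ring
  rw [intervalIntegral.integral_add hi1 hi2] at hft
  have hE : (G k + G (k + 1)) / 2 - ∫ u in k..(k + 1), G u =
      ∫ u in k..(k + 1), (((u - k) * (k + 1 - u) / 2 : ℝ) : ℂ) * G'' u := by
    have h4 : ((((k + 1) - k - 1 / 2 : ℝ) : ℂ) * G (k + 1) +
        ((((k + 1) - k) * (k + 1 - (k + 1)) / 2 : ℝ) : ℂ) * G' (k + 1)) -
      (((k - k - 1 / 2 : ℝ) : ℂ) * G k + (((k - k) * (k + 1 - k) / 2 : ℝ) : ℂ) * G' k) =
      (G k + G (k + 1)) / 2 := by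
      push_cast
      ring
    rw [h4] at hft
    rw [← hft]
    ring
  rw [hE]
  refine intervalIntegral.norm_integral_le_of_norm_le (by linarith) ?_ ?_
  · refine Filter.Eventually.of_forall fun u hu => ?_
    have h0 : 0 ≤ u := le_trans hk hu.1.le
    have h5 := hA u h0
    rw [norm_mul, Complex.norm_real, Real.norm_of_nonneg (by
      have := hu.1; have := hu.2
      have h6 : 0 ≤ (u - k) * (k + 1 - u) := mul_nonneg (by linarith) (by linarith)
      linarith)]
    have h7 : (u - k) * (k + 1 - u) / 2 ≤ 1 / 8 := by nlinarith [sq_nonneg (u - k - 1 / 2)]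
    have h8 : 0 ≤ ‖G'' u‖ := norm_nonneg _
    calc (u - k) * (k + 1 - u) / 2 * ‖G'' u‖ ≤ 1 / 8 * ‖G'' u‖ := by gcongr
      _ ≤ 1 / 8 * (A * Real.exp (-(s * u))) := by gcongr
      _ = A / 8 * Real.exp (-(s * u)) := by ring
  · exact (by fun_prop : Continuous fun u : ℝ => A / 8 * Real.exp (-(s * u))).intervalIntegrable _ _

theorem e02_fin (G G' G'' : ℝ → ℂ) (A s : ℝ)
    (hG : ∀ u, 0 ≤ u → HasDerivAt G (G' u) u) (hG' : ∀ u, 0 ≤ u → HasDerivAt G' (G'' u) u)
    (hc : ContinuousOn G'' (Set.Ici 0)) (hA : ∀ u, 0 ≤ u → ‖G'' u‖ ≤ A * Real.exp (-(s * u)))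
    (N : ℕ) :
    ‖(∑ k ∈ Finset.range N, G ((k : ℝ) + 1)) + (G 0 - G N) / 2 - ∫ u in (0 : ℝ)..N, G u‖ ≤
      ∫ u in (0 : ℝ)..N, A / 8 * Real.exp (-(s * u)) := by
  induction N with
  | zero => simp
  | succ N ih =>
    have hN : (0 : ℝ) ≤ (N : ℝ) := Nat.cast_nonneg N
    have hu := e02_unit G G' G'' A s N hN hG hG' hc hA
    have hint : ∀ a b : ℝ, 0 ≤ a → 0 ≤ b → IntervalIntegrable G volume a b := by
      intro a b ha hb
      refine ContinuousOn.intervalIntegrable fun x hx => ?_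
      have : 0 ≤ x := le_trans (le_min ha hb) hx.1
      exact (hG x this).continuousAt.continuousWithinAt
    have he : ∀ a b : ℝ, IntervalIntegrable (fun u : ℝ => A / 8 * Real.exp (-(s * u))) volume a b :=
      fun a b => (by fun_prop : Continuous fun u : ℝ => A / 8 * Real.exp (-(s * u))).intervalIntegrable _ _
    have h1 : ∫ u in (0 : ℝ)..((N + 1 : ℕ) : ℝ), G u =
        (∫ u in (0 : ℝ)..N, G u) + ∫ u in (N : ℝ)..((N : ℝ) + 1), G u := by
      push_cast
      exact (intervalIntegral.integral_add_adjacent_intervals (hint _ _ le_rfl hN)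
        (hint _ _ hN (by linarith))).symm
    have h2 : ∫ u in (0 : ℝ)..((N + 1 : ℕ) : ℝ), A / 8 * Real.exp (-(s * u)) =
        (∫ u in (0 : ℝ)..N, A / 8 * Real.exp (-(s * u))) +
          ∫ u in (N : ℝ)..((N : ℝ) + 1), A / 8 * Real.exp (-(s * u)) := by
      push_cast
      exact (intervalIntegral.integral_add_adjacent_intervals (he _ _) (he _ _)).symm
    rw [h1, h2, Finset.sum_range_succ]
    have h3 : (∑ k ∈ Finset.range N, G ((k : ℝ) + 1)) + G ((N : ℝ) + 1) +
        (G 0 - G ((N + 1 : ℕ) : ℝ)) / 2 -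
        ((∫ u in (0 : ℝ)..N, G u) + ∫ u in (N : ℝ)..((N : ℝ) + 1), G u) =
        ((∑ k ∈ Finset.range N, G ((k : ℝ) + 1)) + (G 0 - G N) / 2 - ∫ u in (0 : ℝ)..N, G u) +
        ((G N + G ((N : ℝ) + 1)) / 2 - ∫ u in (N : ℝ)..((N : ℝ) + 1), G u) := by
      push_cast
      ring
    rw [h3]
    exact (norm_add_le _ _).trans (add_le_add ih hu)

theorem t_E02 : E02 := by
  intro G G' G'' A B s hs hG hG' hc hA hB
  have hA0 : 0 ≤ A := by
    have := hA 0 le_rfl
    simp at this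
    exact (norm_nonneg _).trans this
  -- exponential bounds
  have hexp : IntegrableOn (fun u : ℝ => Real.exp (-(s * u))) (Set.Ioi 0) := by
    have := integrableOn_exp_mul_Ioi (a := -s) (by linarith) 0
    simpa [neg_mul] using this
  have hexpi : ∫ u in Set.Ioi (0 : ℝ), Real.exp (-(s * u)) = 1 / s := by
    have := integral_exp_mul_Ioi (a := -s) (by linarith) 0
    simp only [neg_mul, mul_zero, neg_zero, Real.exp_zero] at this
    rw [this]
    field_simp
  have hGi : IntegrableOn G (Set.Ioi 0) := by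
    refine Integrable.mono' (hexp.const_mul B) ?_ ?_
    · refine ContinuousOn.aestronglyMeasurable (fun x hx => ?_) measurableSet_Ioi
      exact (hG x (le_of_lt hx)).continuousAt.continuousWithinAt
    · refine (ae_restrict_mem measurableSet_Ioi).mono fun u hu => ?_
      exact hB u (le_of_lt hu)
  have hle : ∀ N : ℕ, (∫ u in (0 : ℝ)..N, A / 8 * Real.exp (-(s * u))) ≤ A / (8 * s) := by
    intro N
    rw [intervalIntegral.integral_of_le (Nat.cast_nonneg N)]
    calc ∫ u in Set.Ioc (0 : ℝ) N, A / 8 * Real.exp (-(s * u))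
        ≤ ∫ u in Set.Ioi (0 : ℝ), A / 8 * Real.exp (-(s * u)) := by
          refine setIntegral_mono_set (hexp.const_mul _) ?_ ?_
          · exact Filter.Eventually.of_forall fun u => by positivity
          · exact (Set.Ioc_subset_Ioi_self).eventuallyLE
      _ = A / (8 * s) := by
          rw [integral_const_mul, hexpi]
          field_simp
  -- summability
  have hB0 : 0 ≤ B := by
    have := hB 0 le_rfl
    simp at this
    exact (norm_nonneg _).trans this
  have hbd : ∀ k : ℕ, ‖G ((k : ℝ) + 1)‖ ≤ B * (Real.exp (-s)) ^ k := by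
    intro k
    refine (hB _ (by positivity)).trans ?_
    gcongr
    rw [← Real.exp_nat_mul]
    apply Real.exp_le_exp.mpr
    nlinarith
  have hsum : Summable fun k : ℕ => G ((k : ℝ) + 1) := by
    refine Summable.of_norm_bounded (g := fun k : ℕ => B * (Real.exp (-s)) ^ k) ?_ hbd
    exact (summable_geometric_of_lt_one (Real.exp_pos _).le
      (Real.exp_lt_one_iff.mpr (by linarith))).mul_left B
  refine ⟨hsum, ?_⟩
  -- the limit
  have hG0 : Tendsto (fun N : ℕ => G (N : ℝ)) atTop (𝓝 0) := by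
    refine squeeze_zero_norm (a := fun N : ℕ => B * (Real.exp (-s)) ^ N) (fun N => ?_) ?_
    · refine (hB _ (Nat.cast_nonneg N)).trans (le_of_eq ?_)
      rw [← Real.exp_nat_mul]
      congr 2
      ring
    · have := (tendsto_pow_atTop_nhds_zero_of_lt_one (Real.exp_pos (-s)).le
        (Real.exp_lt_one_iff.mpr (by linarith))).const_mul B
      simpa using this
  have hI : Tendsto (fun N : ℕ => ∫ u in (0 : ℝ)..N, G u) atTop
      (𝓝 (∫ u in Set.Ioi (0 : ℝ), G u)) :=
    intervalIntegral_tendsto_integral_Ioi 0 hGi tendsto_natCast_atTop_atTop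
  have hS : Tendsto (fun N : ℕ => ∑ k ∈ Finset.range N, G ((k : ℝ) + 1)) atTop
      (𝓝 (∑' k : ℕ, G ((k : ℝ) + 1))) := hsum.hasSum.tendsto_sum_nat
  have hlim : Tendsto (fun N : ℕ => (∑ k ∈ Finset.range N, G ((k : ℝ) + 1)) + (G 0 - G N) / 2 -
      ∫ u in (0 : ℝ)..N, G u) atTop
      (𝓝 ((∑' k : ℕ, G ((k : ℝ) + 1)) + (G 0 - 0) / 2 - ∫ u in Set.Ioi (0 : ℝ), G u)) :=
    (hS.add ((tendsto_const_nhds.sub hG0).div_const 2)).sub hI
  have hfin : ‖(∑' k : ℕ, G ((k : ℝ) + 1)) + (G 0 - 0) / 2 - ∫ u in Set.Ioi (0 : ℝ), G u‖ ≤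
      A / (8 * s) := by
    refine le_of_tendsto hlim.norm (Filter.Eventually.of_forall fun N => ?_)
    exact (e02_fin G G' G'' A s hG hG' hc hA N).trans (hle N)
  have h9 : (∑' k : ℕ, G ((k : ℝ) + 1)) - (∫ u in Set.Ioi (0 : ℝ), G u) + G 0 / 2 =
      (∑' k : ℕ, G ((k : ℝ) + 1)) + (G 0 - 0) / 2 - ∫ u in Set.Ioi (0 : ℝ), G u := by ring
  rw [h9]
  exact hfin

end Pool.Agent.N106.MI
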